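import Pool.Agent.H568.LB.Stm

set_option autoImplicit false

/-!
# Project LB: MU, the sum of the Möbius function over the small divisors
-/

open Finset Filter Topology Pool.Agent.N792 Pool.Agent.N791.U Pool.Agent.N792.RX5 Pool.Agent.H568 Pool.Agent.H568.LB
open ArithmeticFunction (moebius)

namespace Pool.Agent.H161.LB

lemma ck {N : ℕ} (hsq : Squarefree N) (k : ℕ) :
    #(N.divisors.filter (fun j => w j = k)) = (w N).choose k := by
  rw [w, ← card_powersetCard]
  refine card_bij (fun j _ => j.primeFactors) ?_ ?_ ?_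
  · intro j hj
    rw [mem_filter, Nat.mem_divisors] at hj
    rw [mem_powersetCard]
    exact ⟨Nat.primeFactors_mono hj.1.1 hj.1.2, hj.2⟩
  · intro i hi j hj hij
    rw [mem_filter, Nat.mem_divisors] at hi hj
    rw [← Nat.prod_primeFactors_of_squarefree (hsq.squarefree_of_dvd hi.1.1),
      ← Nat.prod_primeFactors_of_squarefree (hsq.squarefree_of_dvd hj.1.1)]
    exact congrArg (fun S : Finset ℕ => ∏ p ∈ S, p) hij
  · intro S hS
    rw [mem_powersetCard] at hS
    have h1 : (∏ p ∈ S, p).primeFactors = S :=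
      Nat.primeFactors_prod (fun p hp => Nat.prime_of_mem_primeFactors (hS.1 hp))
    have h2 : ∏ p ∈ S, p ∣ N := by
      have := Finset.prod_dvd_prod_of_subset S N.primeFactors (fun p => p) hS.1
      rwa [Nat.prod_primeFactors_of_squarefree hsq] at this
    refine ⟨∏ p ∈ S, p, ?_, h1⟩
    rw [mem_filter, Nat.mem_divisors]
    refine ⟨⟨h2, hsq.ne_zero⟩, ?_⟩
    rw [w, h1, hS.2]

lemma mu_w {j : ℕ} (hs : Squarefree j) : (moebius j : ℝ) = (-1) ^ w j := by
  have h1 := (ArithmeticFunction.cardDistinctFactors_eq_cardFactors_iff_squarefree hs.ne_zero).2 hs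
  have h2 : ArithmeticFunction.cardDistinctFactors j = w j := by
    rw [ArithmeticFunction.cardDistinctFactors_apply, w, ← List.card_toFinset]
    rfl
  rw [ArithmeticFunction.moebius_apply_of_squarefree hs, ← h1, h2]
  push_cast
  ring

/-- number of the small divisors with `k` prime factors -/
def Ak (y N k : ℕ) : ℕ := #(N.divisors.filter (fun j => w j = k ∧ j ≤ y))

lemma sum_Ak {y N : ℕ} (hsq : Squarefree N) :
    ∑ j ∈ N.divisors.filter (fun j => j ≤ y), (moebius j : ℝ) =
      ∑ k ∈ range (w N + 1), (-1 : ℝ) ^ k * Ak y N k := by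
  have h1 : ∀ j ∈ N.divisors.filter (fun j => j ≤ y), w j ∈ range (w N + 1) := by
    intro j hj
    rw [mem_filter, Nat.mem_divisors] at hj
    rw [mem_range]
    have := w_add hsq hj.1.1
    omega
  rw [← sum_fiberwise_of_maps_to h1]
  apply sum_congr rfl
  intro k _
  rw [filter_filter]
  have h2 : ∀ j ∈ N.divisors.filter (fun j => j ≤ y ∧ w j = k), (moebius j : ℝ) = (-1) ^ k := by
    intro j hj
    rw [mem_filter, Nat.mem_divisors] at hj
    rw [mu_w (hsq.squarefree_of_dvd hj.1.1), hj.2.2]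
  rw [sum_congr rfl h2, sum_const, nsmul_eq_mul, mul_comm]
  congr 2
  unfold Ak
  congr 1
  apply filter_congr
  intro j _
  exact and_comm

lemma rel {y N : ℕ} (hsq : Squarefree N) (hyN : y * y < N)
    (hne : ∀ j, j ∣ N → ¬ (y ≤ j ∧ y ≤ N / j)) {a b : ℕ} (h : w N = a + b) :
    Ak y N a + Ak y N b = (w N).choose b := by
  have h1 := inv (a := a) (b := b) hsq hyN hne h
  have h2 := split2 N.divisors (y := y) (a := b)
  rw [ck hsq] at h2
  unfold Ak
  omega

lemma A0 {y N : ℕ} (hsq : Squarefree N) (hy : 1 ≤ y) : Ak y N 0 = 1 := by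
  unfold Ak
  rw [card_eq_one]
  refine ⟨1, ?_⟩
  ext j
  rw [mem_filter, Nat.mem_divisors, mem_singleton]
  constructor
  · rintro ⟨h1, h2, h3⟩
    exact one_of_w (hsq.squarefree_of_dvd h1.1) h2
  · rintro rfl
    exact ⟨⟨one_dvd _, hsq.ne_zero⟩, by simp [w], hy⟩

lemma full {y Q N k : ℕ} (hsq : Squarefree N) (hr : Rough Q N) (hN : N ≤ y * Q ^ 4)
    (hk : k + 4 ≤ w N) : Ak y N k = (w N).choose k := by
  rw [← ck hsq]
  unfold Ak
  congr 1
  apply filter_congr
  intro j hj
  rw [Nat.mem_divisors] at hj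
  constructor
  · exact fun h => h.1
  · intro h
    refine ⟨h, ?_⟩
    by_contra h2
    push Not at h2
    have h7 := w_add hsq hj.1
    have h8 : 4 ≤ w (N / j) := by omega
    have h9 := w_pow (Pool.Agent.N792.SwR.rough_of_dvd hr (Nat.div_dvd_of_dvd hj.1))
    have h10 := Nat.mul_div_cancel' hj.1
    have h11 : (Q + 1) ^ 4 ≤ (Q + 1) ^ w (N / j) := Nat.pow_le_pow_right (by omega) h8
    have h12 : (y + 1) * (Q + 1) ^ 4 ≤ N := by
      calc (y + 1) * (Q + 1) ^ 4 ≤ j * (N / j) := Nat.mul_le_mul h2 (h11.trans h9)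
        _ = N := h10
    have h13 : Q ^ 4 ≤ (Q + 1) ^ 4 := Nat.pow_le_pow_left (by omega) 4
    have h14 : y * Q ^ 4 ≤ y * (Q + 1) ^ 4 := Nat.mul_le_mul le_rfl h13
    have h15 : 0 < (Q + 1) ^ 4 := by positivity
    nlinarith

lemma A1 {y N : ℕ} (hsq : Squarefree N) : Ak y N 1 = #(N.primeFactors.filter (fun p => p ≤ y)) := by
  unfold Ak
  rw [← c1 hsq, filter_filter]

lemma A2 {y N : ℕ} (hsq : Squarefree N) : Ak y N 2 = Pn y N := by
  unfold Ak Pn
  symm
  refine card_bij (fun t _ => t.1 * t.2) ?_ ?_ ?_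
  · rintro ⟨p, q⟩ ht
    rw [mem_filter, mem_product] at ht
    obtain ⟨⟨hp, hq⟩, hlt, hle⟩ := ht
    rw [Nat.mem_primeFactors] at hp hq
    have hc : Nat.Coprime p q := (Nat.coprime_primes hp.1 hq.1).2 (ne_of_lt hlt)
    rw [mem_filter, Nat.mem_divisors]
    refine ⟨⟨hc.mul_dvd_of_dvd_of_dvd hp.2.1 hq.2.1, hsq.ne_zero⟩, ?_, hle⟩
    show w (p * q) = 2
    rw [w, hc.primeFactors_mul, card_union_of_disjoint hc.disjoint_primeFactors,
      hp.1.primeFactors, hq.1.primeFactors]
    simp
  · rintro ⟨p, q⟩ ht ⟨p', q'⟩ ht' he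
    rw [mem_filter, mem_product] at ht ht'
    obtain ⟨⟨hp, hq⟩, hlt, hle⟩ := ht
    obtain ⟨⟨hp', hq'⟩, hlt', hle'⟩ := ht'
    rw [Nat.mem_primeFactors] at hp hq hp' hq'
    simp only at he hlt hlt' hp hq hp' hq'
    have h1 : p ∣ p' * q' := by rw [← he]; exact dvd_mul_right _ _
    have h2 : q ∣ p' * q' := by rw [← he]; exact dvd_mul_left _ _
    have h3 : p' ∣ p * q := by rw [he]; exact dvd_mul_right _ _
    have e1 : p = p' ∨ p = q' := by
      rcases hp.1.dvd_mul.1 h1 with h | h
      · exact Or.inl ((Nat.prime_dvd_prime_iff_eq hp.1 hp'.1).1 h)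
      · exact Or.inr ((Nat.prime_dvd_prime_iff_eq hp.1 hq'.1).1 h)
    have e2 : q = p' ∨ q = q' := by
      rcases hq.1.dvd_mul.1 h2 with h | h
      · exact Or.inl ((Nat.prime_dvd_prime_iff_eq hq.1 hp'.1).1 h)
      · exact Or.inr ((Nat.prime_dvd_prime_iff_eq hq.1 hq'.1).1 h)
    have e3 : p' = p ∨ p' = q := by
      rcases hp'.1.dvd_mul.1 h3 with h | h
      · exact Or.inl ((Nat.prime_dvd_prime_iff_eq hp'.1 hp.1).1 h)
      · exact Or.inr ((Nat.prime_dvd_prime_iff_eq hp'.1 hq.1).1 h)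
    have e4 : p = p' ∧ q = q' := by omega
    rw [e4.1, e4.2]
  · intro j hj
    rw [mem_filter, Nat.mem_divisors] at hj
    obtain ⟨⟨hjN, hN0⟩, hw, hle⟩ := hj
    have hjs := hsq.squarefree_of_dvd hjN
    obtain ⟨p, q, hpq, h1⟩ := card_eq_two.1 hw
    have h2 := Nat.prod_primeFactors_of_squarefree hjs
    rw [h1, prod_pair hpq] at h2
    have hp : p ∈ j.primeFactors := by rw [h1]; simp
    have hq : q ∈ j.primeFactors := by rw [h1]; simp
    have hp' := Nat.primeFactors_mono hjN hN0 hp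
    have hq' := Nat.primeFactors_mono hjN hN0 hq
    rcases Nat.lt_or_gt_of_ne hpq with h3 | h3
    · refine ⟨(p, q), ?_, h2⟩
      rw [mem_filter, mem_product]
      exact ⟨⟨hp', hq'⟩, h3, by rw [h2]; exact hle⟩
    · refine ⟨(q, p), ?_, by rw [← h2, mul_comm]⟩
      rw [mem_filter, mem_product]
      exact ⟨⟨hq', hp'⟩, h3, by rw [mul_comm, h2]; exact hle⟩

theorem t_MU : S_MU := by
  intro y Q N hy hyN hsq hr hN hne
  have hA0 := A0 (y := y) hsq hy
  refine ⟨fun h => ?_, fun h => ?_, fun h => ?_, fun h => ?_, fun h => ?_⟩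
  · rw [sum_Ak hsq]
    set S : ℝ := ∑ k ∈ range (w N + 1), (-1 : ℝ) ^ k * Ak y N k with hS
    have hw0 : w N ≠ 0 := by
      intro h0
      have h1 := one_of_w hsq h0
      rw [h1] at hyN
      nlinarith
    have h1 : S = ∑ k ∈ range (w N + 1), (-1 : ℝ) ^ k * Ak y N (w N - k) := by
      rw [hS, ← sum_range_reflect]
      apply sum_congr rfl
      intro k hk
      rw [mem_range] at hk
      have e : w N + 1 - 1 - k = w N - k := by omega
      rw [e]
      congr 1
      have e2 : (-1 : ℝ) ^ (w N - k) * (-1) ^ k = 1 := by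
        rw [← pow_add, Nat.sub_add_cancel (by omega)]
        exact h.neg_one_pow
      have e3 : (-1 : ℝ) ^ k * (-1) ^ k = 1 := by
        rw [← pow_add]
        exact (Even.add_self k).neg_one_pow
      have e4 : ((-1 : ℝ) ^ k) ≠ 0 := pow_ne_zero _ (by norm_num)
      exact mul_right_cancel₀ e4 (e2.trans e3.symm)
    have h2 : S + S = ∑ k ∈ range (w N + 1), (-1 : ℝ) ^ k * (w N).choose k := by
      nth_rewrite 2 [h1]
      rw [hS, ← sum_add_distrib]
      apply sum_congr rfl
      intro k hk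
      rw [mem_range] at hk
      have h3 := rel hsq hyN hne (a := w N - k) (b := k) (by omega)
      have h4 : (Ak y N (w N - k) : ℝ) + Ak y N k = (w N).choose k := by exact_mod_cast h3
      rw [← h4]
      ring
    have h3 := Int.alternating_sum_range_choose_of_ne hw0
    have h4 : ∑ k ∈ range (w N + 1), (-1 : ℝ) ^ k * (w N).choose k = 0 := by exact_mod_cast h3
    linarith
  · have r1 := rel hsq hyN hne (a := 1) (b := 2) (by omega)
    have r2 := rel hsq hyN hne (a := 0) (b := 3) (by omega)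
    rw [sum_Ak hsq, h, ← A1 hsq]
    rw [h] at r1 r2
    have c32 : Nat.choose 3 2 = 3 := by decide
    have c33 : Nat.choose 3 3 = 1 := by decide
    rw [c32] at r1
    rw [c33, hA0] at r2
    have s1 : (Ak y N 1 : ℝ) + Ak y N 2 = 3 := by exact_mod_cast r1
    have s2 : (Ak y N 3 : ℝ) = 0 := by
      have : Ak y N 3 = 0 := by omega
      exact_mod_cast this
    simp only [sum_range_succ, sum_range_zero, hA0, s2]
    norm_num
    linarith
  · have r0 := full hsq hr hN (k := 1) (by omega)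
    have r1 := rel hsq hyN hne (a := 1) (b := 4) (by omega)
    have r2 := rel hsq hyN hne (a := 0) (b := 5) (by omega)
    have r3 := rel hsq hyN hne (a := 2) (b := 3) (by omega)
    rw [sum_Ak hsq, h, ← A2 hsq]
    rw [h] at r0 r1 r2 r3
    have c1 : Nat.choose 5 1 = 5 := by decide
    have c3 : Nat.choose 5 3 = 10 := by decide
    have c4 : Nat.choose 5 4 = 5 := by decide
    have c5 : Nat.choose 5 5 = 1 := by decide
    rw [c1] at r0
    rw [c4] at r1
    rw [c5, hA0] at r2
    rw [c3] at r3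
    have s0 : (Ak y N 1 : ℝ) = 5 := by exact_mod_cast r0
    have s1 : (Ak y N 4 : ℝ) = 0 := by
      have : Ak y N 4 = 0 := by omega
      exact_mod_cast this
    have s2 : (Ak y N 5 : ℝ) = 0 := by
      have : Ak y N 5 = 0 := by omega
      exact_mod_cast this
    have s3 : (Ak y N 2 : ℝ) + Ak y N 3 = 10 := by exact_mod_cast r3
    simp only [sum_range_succ, sum_range_zero, hA0, s0, s1, s2]
    norm_num
    linarith
  · have f1 := full hsq hr hN (k := 1) (by omega)
    have f2 := full hsq hr hN (k := 2) (by omega)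
    have f3 := full hsq hr hN (k := 3) (by omega)
    have r1 := rel hsq hyN hne (a := 1) (b := 6) (by omega)
    have r2 := rel hsq hyN hne (a := 2) (b := 5) (by omega)
    have r3 := rel hsq hyN hne (a := 3) (b := 4) (by omega)
    have r4 := rel hsq hyN hne (a := 0) (b := 7) (by omega)
    rw [sum_Ak hsq, h]
    rw [h] at f1 f2 f3 r1 r2 r3 r4
    have c1 : Nat.choose 7 1 = 7 := by decide
    have c2 : Nat.choose 7 2 = 21 := by decide
    have c3 : Nat.choose 7 3 = 35 := by decide
    have c4 : Nat.choose 7 4 = 35 := by decide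
    have c5 : Nat.choose 7 5 = 21 := by decide
    have c6 : Nat.choose 7 6 = 7 := by decide
    have c7 : Nat.choose 7 7 = 1 := by decide
    rw [c1] at f1
    rw [c2] at f2
    rw [c3] at f3
    rw [c6] at r1
    rw [c5] at r2
    rw [c4] at r3
    rw [c7, hA0] at r4
    have g4 : Ak y N 4 = 0 := by omega
    have g5 : Ak y N 5 = 0 := by omega
    have g6 : Ak y N 6 = 0 := by omega
    have g7 : Ak y N 7 = 0 := by omega
    simp only [sum_range_succ, sum_range_zero, hA0, f1, f2, f3, g4, g5, g6, g7]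
    norm_num
  · have r1 := rel hsq hyN hne (a := 0) (b := 1) (by omega)
    rw [sum_Ak hsq, h]
    rw [h, Nat.choose_self, hA0] at r1
    have g1 : Ak y N 1 = 0 := by omega
    simp only [sum_range_succ, sum_range_zero, hA0, g1]
    norm_num

end Pool.Agent.H161.LB
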